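import Mathlib

namespace Pool.Agent.H.MP_33747a_co
open Finset

variable {V : Type} [Fintype V] [DecidableEq V]

def IsM (M : Finset (Sym2 V)) : Prop :=
  (∀ e ∈ M, ¬ e.IsDiag) ∧ ∀ e ∈ M, ∀ f ∈ M, e ≠ f → ∀ v, v ∈ e → v ∉ f

open Classical in
noncomputable def mats (k : ℕ) (S : Finset V) : Finset (Finset (Sym2 V)) :=
  univ.filter fun M => M.card = k ∧ IsM M ∧ ∀ e ∈ M, ∀ v ∈ e, v ∈ S

theorem mem_mats {k : ℕ} {S : Finset V} {M : Finset (Sym2 V)} :
    M ∈ mats k S ↔ M.card = k ∧ IsM M ∧ ∀ e ∈ M, ∀ v ∈ e, v ∈ S := by simp [mats]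

noncomputable def hh (w : Sym2 V → ℝ) (k : ℕ) (S : Finset V) : ℝ := ∑ M ∈ mats k S, ∏ e ∈ M, w e

def vs (M : Finset (Sym2 V)) : Finset V := M.biUnion Sym2.toFinset

omit [Fintype V] in
theorem mem_vs {M : Finset (Sym2 V)} {v : V} : v ∈ vs M ↔ ∃ e ∈ M, v ∈ e := by simp [vs]

omit [Fintype V] in
theorem card_vs (M : Finset (Sym2 V)) : (vs M).card ≤ 2 * M.card := by
  rw [mul_comm]
  apply Finset.card_biUnion_le_card_mul
  intro e _
  rw [Sym2.card_toFinset]; split_ifs <;> omega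

theorem mats_erase (k : ℕ) (S : Finset V) (v : V) :
    mats k (S.erase v) = (mats k S).filter fun M => v ∉ vs M := by
  ext M
  simp only [mem_mats, Finset.mem_filter, mem_vs, Finset.mem_erase]
  constructor
  · rintro ⟨h1, h2, h3⟩
    exact ⟨⟨h1, h2, fun e he u hu => (h3 e he u hu).2⟩, fun ⟨e, he, hv⟩ => (h3 e he v hv).1 rfl⟩
  · rintro ⟨⟨h1, h2, h3⟩, h4⟩
    exact ⟨h1, h2, fun e he u hu => ⟨fun h => h4 ⟨e, he, h ▸ hu⟩, h3 e he u hu⟩⟩

theorem hh_erase (w : Sym2 V → ℝ) (k : ℕ) (S : Finset V) (v : V) :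
    hh w k (S.erase v) = ∑ M ∈ mats k S, if v ∉ vs M then ∏ e ∈ M, w e else 0 := by
  rw [hh, mats_erase, Finset.sum_filter]

theorem hh_zero (w : Sym2 V → ℝ) (S : Finset V) : hh w 0 S = 1 := by
  have : mats 0 S = {∅} := by
    ext M
    simp only [mem_mats, Finset.card_eq_zero, Finset.mem_singleton]
    constructor
    · exact fun h => h.1
    · rintro rfl; simp [IsM]
  simp [hh, this]

theorem hh_cover (w : Sym2 V → ℝ) (k : ℕ) (S : Finset V) (v : V) (hv : v ∈ S) :
    (∑ M ∈ mats (k + 1) S, if v ∈ vs M then ∏ e ∈ M, w e else 0) =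
      ∑ u ∈ S.erase v, w s(v, u) * hh w k ((S.erase v).erase u) := by
  rw [← Finset.sum_filter]
  simp only [hh, Finset.mul_sum]
  rw [Finset.sum_sigma']
  symm
  have key : ∀ p : (Σ _ : V, Finset (Sym2 V)),
      p ∈ (S.erase v).sigma (fun u => mats k ((S.erase v).erase u)) →
      ∀ e ∈ p.2, v ∉ e ∧ p.1 ∉ e := by
    intro p hp e he
    have h := (mem_mats.1 (Finset.mem_sigma.1 hp).2).2.2 e he
    exact ⟨fun h1 => by simpa using h v h1, fun h1 => by simpa using h _ h1⟩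
  apply Finset.sum_bij (fun p _ => insert s(v, p.1) p.2)
  · intro p hp
    have k1 := key p hp
    obtain ⟨h1, h2⟩ := Finset.mem_sigma.1 hp
    obtain ⟨h3, h4, h5⟩ := mem_mats.1 h2
    have hn : s(v, p.1) ∉ p.2 := fun h => (k1 _ h).1 (by simp)
    refine Finset.mem_filter.2 ⟨mem_mats.2 ⟨by rw [Finset.card_insert_of_notMem hn, h3], ⟨?_, ?_⟩,
      ?_⟩, mem_vs.2 ⟨_, Finset.mem_insert_self _ _, by simp⟩⟩
    · intro e he
      rcases Finset.mem_insert.1 he with rfl | he
      · simpa using (Finset.ne_of_mem_erase h1).symm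
      · exact h4.1 e he
    · intro e he f hf hef u hu hu'
      rcases Finset.mem_insert.1 he with rfl | he
      · rcases Finset.mem_insert.1 hf with rfl | hf
        · exact hef rfl
        · rcases Sym2.mem_iff.1 hu with h | h
          · exact (k1 f hf).1 (h ▸ hu')
          · exact (k1 f hf).2 (h ▸ hu')
      · rcases Finset.mem_insert.1 hf with rfl | hf
        · rcases Sym2.mem_iff.1 hu' with h | h
          · exact (k1 e he).1 (h ▸ hu)
          · exact (k1 e he).2 (h ▸ hu)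
        · exact h4.2 e he f hf hef u hu hu'
    · intro e he u hu
      rcases Finset.mem_insert.1 he with rfl | he
      · rcases Sym2.mem_iff.1 hu with rfl | rfl
        · exact hv
        · exact Finset.mem_of_mem_erase h1
      · exact Finset.mem_of_mem_erase (Finset.mem_of_mem_erase (h5 e he u hu))
  · rintro ⟨u, M⟩ hp ⟨u', M'⟩ hq h
    have k1 := key _ hp
    have k2 := key _ hq
    simp only at h k1 k2
    have h1 : s(v, u) ∈ insert s(v, u') M' := h ▸ Finset.mem_insert_self _ _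
    have h2 : u = u' := by
      rcases Finset.mem_insert.1 h1 with h1 | h1
      · exact Sym2.congr_right.1 h1
      · exact absurd (by simp) (k2 _ h1).1
    subst h2
    have hn : s(v, u) ∉ M := fun h => (k1 _ h).1 (by simp)
    have hn' : s(v, u) ∉ M' := fun h => (k2 _ h).1 (by simp)
    have : M = M' := by rw [← Finset.erase_insert hn, h, Finset.erase_insert hn']
    rw [this]
  · intro M hM
    obtain ⟨h1, h2⟩ := Finset.mem_filter.1 hM
    obtain ⟨h3, h4, h5⟩ := mem_mats.1 h1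
    obtain ⟨e, he, hve⟩ := mem_vs.1 h2
    obtain ⟨u, rfl⟩ := Sym2.mem_iff_exists.1 hve
    have huv : u ≠ v := by rintro rfl; exact h4.1 _ he (by simp)
    refine ⟨⟨u, M.erase s(v, u)⟩, Finset.mem_sigma.2 ⟨Finset.mem_erase.2 ⟨huv, h5 _ he u (by simp)⟩,
      mem_mats.2 ⟨by rw [Finset.card_erase_of_mem he, h3]; rfl,
        ⟨fun f hf => h4.1 f (Finset.mem_of_mem_erase hf), fun f hf g hg =>
          h4.2 f (Finset.mem_of_mem_erase hf) g (Finset.mem_of_mem_erase hg)⟩, ?_⟩⟩,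
      Finset.insert_erase he⟩
    intro f hf x hx
    obtain ⟨a1, a2⟩ := Finset.mem_erase.1 hf
    have := h4.2 f a2 _ he a1 x hx
    simp only [Sym2.mem_iff, not_or] at this
    exact Finset.mem_erase.2 ⟨this.2, Finset.mem_erase.2 ⟨this.1, h5 f a2 x hx⟩⟩
  · intro p hp
    rw [Finset.prod_insert fun h => (key p hp _ h).1 (by simp)]

theorem hh_rec (w : Sym2 V → ℝ) (k : ℕ) (S : Finset V) (v : V) (hv : v ∈ S) :
    hh w (k + 1) S = hh w (k + 1) (S.erase v) +
      ∑ u ∈ S.erase v, w s(v, u) * hh w k ((S.erase v).erase u) := by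
  rw [← hh_cover w k S v hv, hh_erase, ← Finset.sum_add_distrib, hh]
  refine Finset.sum_congr rfl fun M _ => ?_
  by_cases h : v ∈ vs M <;> simp [h]

theorem hh_congr (w w' : Sym2 V → ℝ) (k : ℕ) (S : Finset V)
    (h : ∀ a ∈ S, ∀ b ∈ S, w s(a, b) = w' s(a, b)) : hh w k S = hh w' k S := by
  refine Finset.sum_congr rfl fun M hM => Finset.prod_congr rfl fun e he => ?_
  have := (mem_mats.1 hM).2.2 e he
  induction e using Sym2.ind with
  | h a b => exact h a (this a (by simp)) b (this b (by simp))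

theorem sgl (w : Sym2 V → ℝ) (k : ℕ) (T : Finset V) (g : V → ℝ) :
    ∑ v ∈ T, g v * hh w k (T.erase v) =
      ∑ M ∈ mats k T, (∏ e ∈ M, w e) * ∑ v ∈ T \ vs M, g v := by
  simp only [hh_erase, Finset.mul_sum]
  rw [Finset.sum_comm]
  refine Finset.sum_congr rfl fun M _ => ?_
  rw [Finset.sdiff_eq_filter, Finset.sum_filter]
  refine Finset.sum_congr rfl fun v _ => ?_
  split_ifs <;> ring

theorem dbl (w : Sym2 V → ℝ) (k : ℕ) (T : Finset V) (g : V → V → ℝ) :
    ∑ v ∈ T, ∑ u ∈ T.erase v, g v u * hh w k ((T.erase v).erase u) =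
      ∑ M ∈ mats k T, (∏ e ∈ M, w e) * ∑ v ∈ T \ vs M, ∑ u ∈ (T \ vs M).erase v, g v u := by
  simp only [sgl, mats_erase, Finset.sum_filter]
  rw [Finset.sum_comm]
  refine Finset.sum_congr rfl fun M _ => ?_
  rw [Finset.mul_sum, ← Finset.sum_filter, ← Finset.sdiff_eq_filter]
  refine Finset.sum_congr rfl fun v _ => ?_
  have : T.erase v \ vs M = (T \ vs M).erase v := by ext u; simp [and_assoc]
  rw [this]

theorem cov (w : Sym2 V → ℝ) (k : ℕ) (T : Finset V) (g : V → ℝ) :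
    ∑ v ∈ T, g v * ∑ u ∈ T.erase v, w s(v, u) * hh w k ((T.erase v).erase u) =
      ∑ M ∈ mats (k + 1) T, (∏ e ∈ M, w e) * ∑ v ∈ T ∩ vs M, g v := by
  rw [Finset.sum_congr rfl fun v hv => by rw [← hh_cover w k T v hv]]
  simp only [Finset.mul_sum]
  rw [Finset.sum_comm]
  refine Finset.sum_congr rfl fun M _ => ?_
  rw [← Finset.filter_mem_eq_inter, Finset.sum_filter]
  refine Finset.sum_congr rfl fun v _ => ?_
  split_ifs <;> ring

theorem expand (w : Sym2 V → ℝ) (K : ℕ) (U : Finset V) (i j : V) (hi : i ∈ U) (hj : j ∈ U)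
    (hij : i ≠ j) (S : Finset V) (hS : S = (U.erase i).erase j) :
    hh w (K + 2) U = hh w (K + 2) S + w s(i, j) * hh w (K + 1) S +
      ∑ l ∈ S, (w s(i, l) + w s(j, l)) * hh w (K + 1) (S.erase l) +
      ∑ l ∈ S, ∑ l' ∈ S.erase l, (w s(i, l) * w s(j, l')) * hh w K ((S.erase l).erase l') := by
  have hj' : j ∈ U.erase i := Finset.mem_erase.2 ⟨hij.symm, hj⟩
  rw [hh_rec w (K + 1) U i hi, hh_rec w (K + 1) (U.erase i) j hj',
    ← Finset.add_sum_erase _ _ hj', ← hS]
  have : ∀ l ∈ S, w s(i, l) * hh w (K + 1) ((U.erase i).erase l) =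
      w s(i, l) * hh w (K + 1) (S.erase l) +
      ∑ l' ∈ S.erase l, (w s(i, l) * w s(j, l')) * hh w K ((S.erase l).erase l') := by
    intro l hl
    have h1 : j ∈ (U.erase i).erase l := by
      rw [hS] at hl
      exact Finset.mem_erase.2 ⟨(Finset.ne_of_mem_erase hl).symm, hj'⟩
    rw [hh_rec w K _ j h1, Finset.erase_right_comm (a := l) (b := j), ← hS, mul_add, Finset.mul_sum]
    simp only [mul_assoc]
  rw [Finset.sum_congr rfl this]
  simp only [add_mul, Finset.sum_add_distrib]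
  ring

end Pool.Agent.H.MP_33747a_co
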