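import Pool.Agent.H.MP_33747a_co.A

namespace Pool.Agent.H.MP_33747a_co
open Finset

variable {V : Type} [Fintype V] [DecidableEq V]

structure DS (w : Sym2 V → ℝ) : Prop where
  nn : ∀ e, 0 ≤ w e
  row : ∀ v, ∑ u ∈ univ.erase v, w s(v, u) = 1

theorem hh_nn {w : Sym2 V → ℝ} (h : DS w) (k : ℕ) (S : Finset V) : 0 ≤ hh w k S :=
  Finset.sum_nonneg fun _ _ => Finset.prod_nonneg fun e _ => h.nn e

theorem hh_mono {w : Sym2 V → ℝ} (h : DS w) (k : ℕ) (S : Finset V) (v : V) :
    hh w k (S.erase v) ≤ hh w k S := by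
  rw [hh, mats_erase]
  exact Finset.sum_le_sum_of_subset_of_nonneg (Finset.filter_subset _ _)
    fun _ _ _ => Finset.prod_nonneg fun e _ => h.nn e

theorem inner {w : Sym2 V → ℝ} (h : DS w) (U : Finset V) :
    2 * (U.card : ℝ) - Fintype.card V ≤ ∑ v ∈ U, ∑ u ∈ U.erase v, w s(v, u) := by
  have h1 : ∀ v ∈ U, ∑ u ∈ U.erase v, w s(v, u) = 1 - ∑ u ∈ Uᶜ, w s(v, u) := by
    intro v hv
    rw [← h.row v, eq_sub_iff_add_eq, ← Finset.sum_union]
    · congr 1; ext u; by_cases hu : u ∈ U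
      · simp [hu]
      · simp only [hu, mem_union, mem_erase, and_false, mem_compl, not_false_eq_true, or_true,
          mem_univ, and_true, true_iff]
        rintro rfl; exact hu hv
    · exact Finset.disjoint_left.2 fun u h1 h2 =>
        Finset.mem_compl.1 h2 (Finset.mem_of_mem_erase h1)
  rw [Finset.sum_congr rfl h1, Finset.sum_sub_distrib, Finset.sum_comm]
  have h2 : ∑ u ∈ Uᶜ, ∑ v ∈ U, w s(v, u) ≤ ∑ u ∈ Uᶜ, (1 : ℝ) := by
    refine Finset.sum_le_sum fun u hu => ?_
    rw [← h.row u]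
    simp only [Sym2.eq_swap (b := u)]
    refine Finset.sum_le_sum_of_subset_of_nonneg (fun v hv => ?_) fun _ _ _ => h.nn _
    refine Finset.mem_erase.2 ⟨?_, Finset.mem_univ _⟩
    rintro rfl; exact Finset.mem_compl.1 hu hv
  have h3 : (U.card : ℝ) + (Uᶜ.card : ℝ) = Fintype.card V := by
    exact_mod_cast Finset.card_add_card_compl U
  simp only [Finset.sum_const, nsmul_eq_mul, mul_one] at h2 ⊢
  linarith

theorem grow {w : Sym2 V → ℝ} (h : DS w) (k : ℕ) (T : Finset V) :
    (2 * (T.card : ℝ) - 4 * k - Fintype.card V) * hh w k T ≤ 2 * (k + 1) * hh w (k + 1) T := by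
  have h1 := cov w k T (fun _ => 1)
  have h2 := dbl w k T (fun v u => w s(v, u))
  simp only [one_mul] at h1
  rw [h1] at h2
  have hp : ∀ M : Finset (Sym2 V), 0 ≤ ∏ e ∈ M, w e := fun M =>
    Finset.prod_nonneg fun e _ => h.nn e
  rw [hh, hh, Finset.mul_sum, Finset.mul_sum]
  refine le_trans (Finset.sum_le_sum fun M hM => ?_) (h2.symm.le.trans
    (Finset.sum_le_sum fun M hM => ?_))
  · rw [mul_comm]
    refine mul_le_mul_of_nonneg_left (le_trans ?_ (inner h _)) (hp M)
    have e1 := card_vs M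
    rw [(mem_mats.1 hM).1] at e1
    have e2 : T.card ≤ (T \ vs M).card + (vs M).card := Finset.card_le_card_sdiff_add_card
    have e3 : (T.card : ℝ) ≤ (T \ vs M).card + 2 * k := by exact_mod_cast (by omega)
    linarith
  · rw [mul_comm]
    refine mul_le_mul_of_nonneg_right ?_ (hp M)
    have e1 := card_vs M
    rw [(mem_mats.1 hM).1] at e1
    have e2 : (T ∩ vs M).card ≤ (vs M).card := Finset.card_le_card Finset.inter_subset_right
    simp only [Finset.sum_const, nsmul_eq_mul, mul_one]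
    exact_mod_cast e2.trans e1

theorem hh_pos {w : Sym2 V → ℝ} (h : DS w) (T : Finset V) (k : ℕ)
    (hk : 0 < 2 * (T.card : ℝ) - 4 * k - Fintype.card V) : 0 < hh w k T := by
  induction k with
  | zero => rw [hh_zero]; exact one_pos
  | succ k ih =>
    push_cast at hk
    have h1 : 0 < 2 * (T.card : ℝ) - 4 * k - Fintype.card V := by linarith
    have := (mul_pos h1 (ih h1)).trans_le (grow h k T)
    exact (mul_pos_iff_of_pos_left (by positivity)).1 this

theorem avg_lt {w w' : Sym2 V → ℝ} (h : DS w) (k : ℕ) (i j : V) (hij : i ≠ j)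
    (hN : 4 * (k + 1) ^ 2 + 4 * (k + 1) + 2 ≤ Fintype.card V) (S : Finset V)
    (hS : S = (univ.erase i).erase j) (h1 : ∀ a ∈ S, ∀ b ∈ S, w' s(a, b) = w s(a, b))
    (h2 : w' s(i, j) = w s(i, j))
    (h3 : ∀ l ∈ S, w' s(i, l) = (w s(i, l) + w s(j, l)) / 2)
    (h4 : ∀ l ∈ S, w' s(j, l) = (w s(i, l) + w s(j, l)) / 2)
    (hz : ∃ l ∈ S, w s(i, l) ≠ w s(j, l)) :
    hh w' (k + 1 + 2) univ < hh w (k + 1 + 2) univ := by
  have hc : ∀ c (T : Finset V), T ⊆ S → hh w' c T = hh w c T := fun c T hT =>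
    hh_congr _ _ _ _ fun a ha b hb => h1 a (hT ha) b (hT hb)
  rw [expand w' (k + 1) univ i j (mem_univ _) (mem_univ _) hij S hS,
    expand w (k + 1) univ i j (mem_univ _) (mem_univ _) hij S hS, hc _ S subset_rfl,
    hc _ S subset_rfl, h2]
  set x : V → ℝ := fun l => w s(i, l) with hx
  set y : V → ℝ := fun l => w s(j, l) with hy
  have e1 : ∑ l ∈ S, (w' s(i, l) + w' s(j, l)) * hh w' (k + 1 + 1) (S.erase l) =
      ∑ l ∈ S, (w s(i, l) + w s(j, l)) * hh w (k + 1 + 1) (S.erase l) :=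
    Finset.sum_congr rfl fun l hl => by
      rw [h3 l hl, h4 l hl, hc _ _ (Finset.erase_subset _ _)]; ring
  have e2 : ∑ l ∈ S, ∑ l' ∈ S.erase l, (w' s(i, l) * w' s(j, l')) *
      hh w' (k + 1) ((S.erase l).erase l') = ∑ l ∈ S, ∑ l' ∈ S.erase l,
        ((x l + y l) / 2 * ((x l' + y l') / 2)) * hh w (k + 1) ((S.erase l).erase l') :=
    Finset.sum_congr rfl fun l hl => Finset.sum_congr rfl fun l' hl' => by
      rw [h3 l hl, h4 l' (Finset.mem_of_mem_erase hl'),
        hc _ _ ((Finset.erase_subset _ _).trans (Finset.erase_subset _ _))]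
  rw [e1, e2, add_lt_add_iff_left, dbl, dbl w (k + 1) S (fun l l' => x l * y l')]
  have hp : ∀ M : Finset (Sym2 V), 0 ≤ ∏ e ∈ M, w e := fun M =>
    Finset.prod_nonneg fun e _ => h.nn e
  have bil : ∀ (W : Finset V) (a b : V → ℝ), ∑ v ∈ W, ∑ u ∈ W.erase v, a v * b u =
      (∑ v ∈ W, a v) * (∑ v ∈ W, b v) - ∑ v ∈ W, a v * b v := by
    intro W a b
    rw [Finset.sum_mul, ← Finset.sum_sub_distrib]
    refine Finset.sum_congr rfl fun v hv => ?_
    rw [← Finset.mul_sum, ← Finset.add_sum_erase W b hv]; ring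
  have hjm : j ∈ univ.erase i := Finset.mem_erase.2 ⟨hij.symm, mem_univ _⟩
  have him : i ∈ univ.erase j := Finset.mem_erase.2 ⟨hij, mem_univ _⟩
  have hsum : ∑ l ∈ S, (x l - y l) = 0 := by
    have r1 := h.row i
    have r2 := h.row j
    rw [← Finset.add_sum_erase _ _ hjm, ← hS] at r1
    rw [← Finset.add_sum_erase _ _ him, Finset.erase_right_comm, ← hS, Sym2.eq_swap] at r2
    rw [Finset.sum_sub_distrib]; simp only [hx, hy]; linarith
  have key : ∀ M ∈ mats (k + 1) S,
      (∏ e ∈ M, w e) * ∑ v ∈ S \ vs M, ∑ u ∈ (S \ vs M).erase v, (x v + y v) / 2 * ((x u + y u) / 2)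
      + ((∏ e ∈ M, w e) * ∑ v ∈ S \ vs M, (x v - y v) ^ 2 -
        2 * (k + 1) * ((∏ e ∈ M, w e) * ∑ v ∈ S ∩ vs M, (x v - y v) ^ 2)) / 4 ≤
      (∏ e ∈ M, w e) * ∑ v ∈ S \ vs M, ∑ u ∈ (S \ vs M).erase v, x v * y u := by
    intro M hM
    rw [bil (S \ vs M) (fun v => (x v + y v) / 2) (fun v => (x v + y v) / 2), bil]
    have c1 : (∑ v ∈ S ∩ vs M, (x v - y v)) ^ 2 ≤
        2 * (k + 1) * ∑ v ∈ S ∩ vs M, (x v - y v) ^ 2 := by
      refine sq_sum_le_card_mul_sum_sq.trans (mul_le_mul_of_nonneg_right ?_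
        (Finset.sum_nonneg fun _ _ => sq_nonneg _))
      have e1 := card_vs M
      rw [(mem_mats.1 hM).1] at e1
      have e2 : (S ∩ vs M).card ≤ (vs M).card := Finset.card_le_card Finset.inter_subset_right
      exact_mod_cast e2.trans e1
    have c2 := Finset.sum_inter_add_sum_sdiff S (vs M) (fun v => x v - y v)
    rw [hsum, Finset.sum_sub_distrib (s := S \ vs M)] at c2
    have c3 : ∑ v ∈ S \ vs M, (x v + y v) / 2 =
        (∑ v ∈ S \ vs M, x v + ∑ v ∈ S \ vs M, y v) / 2 := by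
      rw [← Finset.sum_add_distrib, Finset.sum_div]
    have c4 : ∑ v ∈ S \ vs M, (x v + y v) / 2 * ((x v + y v) / 2) =
        ∑ v ∈ S \ vs M, x v * y v + (∑ v ∈ S \ vs M, (x v - y v) ^ 2) / 4 := by
      rw [Finset.sum_div, ← Finset.sum_add_distrib]
      exact Finset.sum_congr rfl fun v _ => by ring
    rw [c3, c4]
    have c5 : ∑ v ∈ S ∩ vs M, (x v - y v) = ∑ v ∈ S \ vs M, y v - ∑ v ∈ S \ vs M, x v := by
      linarith
    rw [c5] at c1
    have := mul_le_mul_of_nonneg_left c1 (hp M)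
    nlinarith
  refine lt_of_lt_of_le ?_ (Finset.sum_le_sum key)
  rw [Finset.sum_add_distrib, lt_add_iff_pos_right, ← Finset.sum_div, Finset.sum_sub_distrib,
    ← Finset.mul_sum, ← sgl, ← cov, Finset.mul_sum, ← Finset.sum_sub_distrib]
  have hNr : 4 * ((k : ℝ) + 1) ^ 2 + 4 * (k + 1) + 2 ≤ Fintype.card V := by exact_mod_cast hN
  have hk0 : (0 : ℝ) ≤ k := Nat.cast_nonneg _
  have term : ∀ l ∈ S, 0 < hh w k (S.erase l) ∧ 2 * (k + 1) * hh w k (S.erase l) ≤
      hh w (k + 1) (S.erase l) ∧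
      ∑ u ∈ S.erase l, w s(l, u) * hh w k ((S.erase l).erase u) ≤
        (1 - x l - y l) * hh w k (S.erase l) := by
    intro l hl
    have hcard : ((S.erase l).card : ℝ) + 3 = Fintype.card V := by
      have a1 := Finset.card_erase_add_one hl
      have a2 := Finset.card_erase_add_one hjm
      have a3 := Finset.card_erase_add_one (mem_univ i)
      rw [← hS] at a2
      rw [Finset.card_univ] at a3
      exact_mod_cast (by omega)
    have p := hh_pos h (S.erase l) k (by nlinarith)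
    refine ⟨p, ?_, ?_⟩
    · have g := grow h k (S.erase l)
      have : 2 * (k + 1) * (2 * (k + 1) * hh w k (S.erase l)) ≤
          2 * (k + 1) * hh w (k + 1) (S.erase l) := by
        refine le_trans ?_ g
        rw [← mul_assoc]
        exact mul_le_mul_of_nonneg_right (by nlinarith) p.le
      exact le_of_mul_le_mul_left this (by positivity)
    · have r := h.row l
      have hli : l ≠ i ∧ l ≠ j := by rw [hS] at hl; simp at hl; exact ⟨hl.2, hl.1⟩
      have m1 : i ∈ univ.erase l := Finset.mem_erase.2 ⟨hli.1.symm, mem_univ _⟩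
      have m2 : j ∈ (univ.erase l).erase i :=
        Finset.mem_erase.2 ⟨hij.symm, Finset.mem_erase.2 ⟨hli.2.symm, mem_univ _⟩⟩
      have m3 : ((univ.erase l).erase i).erase j = S.erase l := by
        rw [hS]; ext u; simp only [mem_erase, mem_univ]; tauto
      rw [← Finset.add_sum_erase _ _ m1, ← Finset.add_sum_erase _ _ m2, m3,
        Sym2.eq_swap (a := l) (b := i), Sym2.eq_swap (a := l) (b := j)] at r
      have : 1 - x l - y l = ∑ u ∈ S.erase l, w s(l, u) := by simp only [hx, hy]; linarith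
      rw [this, Finset.sum_mul]
      exact Finset.sum_le_sum fun u _ => mul_le_mul_of_nonneg_left (hh_mono h _ _ _) (h.nn _)
  have term2 : ∀ l ∈ S, (x l - y l) ^ 2 * (2 * (k + 1) * ((x l + y l) * hh w k (S.erase l))) ≤
      (x l - y l) ^ 2 * hh w (k + 1) (S.erase l) - 2 * (k + 1) * ((x l - y l) ^ 2 *
        ∑ u ∈ S.erase l, w s(l, u) * hh w k ((S.erase l).erase u)) := by
    intro l hl
    obtain ⟨_, t2, t3⟩ := term l hl
    have t4 := mul_le_mul_of_nonneg_left t3 (show (0 : ℝ) ≤ 2 * (k + 1) by positivity)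
    have t5 : 2 * (k + 1) * ((x l + y l) * hh w k (S.erase l)) ≤ hh w (k + 1) (S.erase l) -
        2 * (k + 1) * ∑ u ∈ S.erase l, w s(l, u) * hh w k ((S.erase l).erase u) := by nlinarith
    have := mul_le_mul_of_nonneg_left t5 (sq_nonneg (x l - y l))
    linarith
  refine div_pos (lt_of_lt_of_le ?_ (Finset.sum_le_sum term2)) (by norm_num)
  have hx0 : ∀ l, 0 ≤ x l := fun l => h.nn _
  have hy0 : ∀ l, 0 ≤ y l := fun l => h.nn _
  apply Finset.sum_pos'
  · intro l hl
    have := (term l hl).1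
    have := hx0 l
    have := hy0 l
    positivity
  · obtain ⟨l, hl, hne⟩ := hz
    refine ⟨l, hl, ?_⟩
    have := (term l hl).1
    have a1 : x l - y l ≠ 0 := sub_ne_zero.2 hne
    have a2 : 0 < x l + y l := by
      rcases (add_nonneg (hx0 l) (hy0 l)).lt_or_eq with h | h
      · exact h
      · exfalso; have := hx0 l; have := hy0 l; exact a1 (by linarith)
    positivity

end Pool.Agent.H.MP_33747a_co
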